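import Pool.Agent.NH75.MP.Tail

set_option autoImplicit false

/-! The maximum number of pairwise edge-disjoint `1`-factors of a complete multipartite graph. -/

namespace Pool.Agent.Results.MP_6b0c0b_co.MuFormula

open Finset SimpleGraph

/-- `K(a_0, ..., a_(p-1))` has `k` pairwise edge-disjoint `1`-factors (perfect matchings). -/
def HasDisjointOneFactors {p : ℕ} (a : Fin p → ℕ) (k : ℕ) : Prop :=
  ∃ M : Fin k → (completeMultipartiteGraph fun i : Fin p => Fin (a i)).Subgraph,
    (∀ c, (M c).IsPerfectMatching) ∧ Pairwise fun c d => Disjoint (M c).edgeSet (M d).edgeSet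

/-- `T_t`: the number of vertices in the parts `t, t+1, ..., p-1`. -/
def topSum {p : ℕ} (a : Fin p → ℕ) (t : Fin p) : ℕ := ∑ i ∈ Finset.Ici t, a i

/-- `e_t`: the number of edges with both ends in the parts `t, t+1, ..., p-1`, doubled. -/
def topEdges {p : ℕ} (a : Fin p → ℕ) (t : Fin p) : ℕ :=
  topSum a t ^ 2 - ∑ i ∈ Finset.Ici t, a i ^ 2

/-- The value of `μ`: `0` if `n = a_0 + ... + a_(p-1)` is odd, and otherwise the minimum of
`n - a_(p-1)` and of the numbers `⌊2 e_t / (2 T_t - n)⌋` over all `t` with `2 T_t > n` (the indices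
`t` with `2 T_t ≤ n` contribute `n`, which never is the minimum). -/
def mu {p : ℕ} (hp : 2 ≤ p) (a : Fin p → ℕ) : ℕ :=
  if Even (∑ i, a i) then
    min ((∑ i, a i) - a ⟨p - 1, by omega⟩)
      ((univ : Finset (Fin p)).inf' ⟨⟨0, by omega⟩, mem_univ _⟩ fun t =>
        if (∑ i, a i) < 2 * topSum a t then topEdges a t / (2 * topSum a t - ∑ i, a i)
        else ∑ i, a i)
  else 0

/-- For all `p ≥ 2` and all `1 ≤ a_0 ≤ ... ≤ a_(p-1)`, the largest `k` such that the complete
multipartite graph with these part sizes has `k` pairwise edge-disjoint `1`-factors is `mu`. -/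
theorem result (p : ℕ) (hp : 2 ≤ p) (a : Fin p → ℕ) (hpos : ∀ i, 1 ≤ a i) (hmono : Monotone a) :
    IsGreatest {k : ℕ | HasDisjointOneFactors a k} (mu hp a) := by
  classical
  have hn : Pool.Agent.NH75.MP.sz a univ = ∑ i, a i := rfl
  have : Nonempty (Fin p) := ⟨⟨0, by omega⟩⟩
  have hlast : ∀ i, a i ≤ a ⟨p - 1, by omega⟩ := by
    intro i
    apply hmono
    rw [Fin.le_def]
    have := i.isLt
    simp only
    omega
  have hle : ∀ i, a i ≤ ∑ i, a i := fun i =>
    Finset.single_le_sum (f := a) (fun _ _ => Nat.zero_le _) (mem_univ i)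
  have hsq : ∀ t, ∑ i ∈ Finset.Ici t, a i ^ 2 ≤ topSum a t ^ 2 := fun t =>
    Finset.sum_sq_le_sq_sum_of_nonneg (fun _ _ => Nat.zero_le _)
  -- the tail inequality in integers
  have hff : ∀ (k : ℕ) (t : Fin p), Pool.Agent.NH75.MP.ff a k (Finset.Ici t) =
      (k : ℤ) * (∑ i, a i : ℕ) - 2 * k * topSum a t + topEdges a t := by
    intro k t
    unfold Pool.Agent.NH75.MP.ff topEdges
    rw [Nat.cast_sub (hsq t)]
    push_cast
    have h1 : ((Pool.Agent.NH75.MP.sz a (Finset.Ici t) : ℕ) : ℤ) = (topSum a t : ℤ) := rfl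
    have h2 : ((Pool.Agent.NH75.MP.sz a univ : ℕ) : ℤ) = ∑ i, (a i : ℤ) := by
      rw [hn]; push_cast; rfl
    rw [h1, h2]
    ring
  have hiff : ∀ (k : ℕ) (t : Fin p), 0 ≤ Pool.Agent.NH75.MP.ff a k (Finset.Ici t) ↔
      ((∑ i, a i) < 2 * topSum a t → k ≤ topEdges a t / (2 * topSum a t - ∑ i, a i)) := by
    intro k t
    rw [hff]
    by_cases hlt : (∑ i, a i) < 2 * topSum a t
    · rw [Nat.le_div_iff_mul_le (by omega)]
      have e1 : ((k * (2 * topSum a t - ∑ i, a i) : ℕ) : ℤ) =
          (k : ℤ) * (2 * topSum a t - (∑ i, a i : ℕ)) := by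
        rw [Nat.cast_mul, Nat.cast_sub hlt.le]
        push_cast
        ring
      constructor
      · intro h _
        have : ((k * (2 * topSum a t - ∑ i, a i) : ℕ) : ℤ) ≤ (topEdges a t : ℤ) := by
          rw [e1]; linarith
        exact_mod_cast this
      · intro h
        have h2 : ((k * (2 * topSum a t - ∑ i, a i) : ℕ) : ℤ) ≤ (topEdges a t : ℤ) := by
          exact_mod_cast h hlt
        rw [e1] at h2
        linarith
    · constructor
      · intro _ h
        exact absurd h hlt
      · intro _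
        have h1 : (2 : ℤ) * topSum a t ≤ (∑ i, a i : ℕ) := by
          exact_mod_cast not_lt.1 hlt
        have h2 : (0 : ℤ) ≤ (k : ℤ) * ((∑ i, a i : ℕ) - 2 * topSum a t) :=
          mul_nonneg (by positivity) (by linarith)
        have h3 : (0 : ℤ) ≤ (topEdges a t : ℤ) := by positivity
        linarith
  unfold mu
  by_cases hev : Even (∑ i, a i)
  · rw [if_pos hev]
    constructor
    · rw [Set.mem_ofPred_eq]
      apply Pool.Agent.NH75.MP.subgraphs_of_PMs
      apply Pool.Agent.NH75.MP.PMs_of a hpos _ hev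
      · intro i
        rw [hn]
        have h1 := hlast i
        have h2 := hle ⟨p - 1, by omega⟩
        have h3 := Nat.min_le_left ((∑ i, a i) - a ⟨p - 1, by omega⟩)
          ((univ : Finset (Fin p)).inf' ⟨⟨0, by omega⟩, mem_univ _⟩ fun t =>
            if (∑ i, a i) < 2 * topSum a t then topEdges a t / (2 * topSum a t - ∑ i, a i)
            else ∑ i, a i)
        omega
      · apply Pool.Agent.NH75.MP.ff_of_tails a hmono
        intro t
        rw [hiff]
        intro hlt
        refine le_trans (Nat.min_le_right _ _) ?_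
        refine le_trans (Finset.inf'_le _ (mem_univ t)) ?_
        rw [if_pos hlt]
    · intro k hk
      obtain ⟨h1, h2⟩ := Pool.Agent.NH75.MP.of_PMs a hpos k
        (Pool.Agent.NH75.MP.PMs_of_subgraphs a k hk)
      apply le_min
      · have := h1 ⟨p - 1, by omega⟩
        rw [hn] at this
        omega
      · apply Finset.le_inf'
        intro t _
        split_ifs with hlt
        · exact (hiff k t).1 (h2 _) hlt
        · have := h1 ⟨p - 1, by omega⟩
          rw [hn] at this
          omega
  · rw [if_neg hev]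
    constructor
    · exact ⟨fun c => c.elim0, fun c => c.elim0, fun c => c.elim0⟩
    · intro k hk
      by_contra hcon
      exact hev (Pool.Agent.NH75.MP.even_of_PMs a k (by omega)
        (Pool.Agent.NH75.MP.PMs_of_subgraphs a k hk))

end Pool.Agent.Results.MP_6b0c0b_co.MuFormula
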